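import Pool.Agent.Q200.HP.Par

/-!
# The motivic cup product pairing for products of hypersurfaces over finite fields

For a smooth projective variety over a finite field all the pairings
`H^i(X, ℚ(n)) × H^(2d-i)(X, ℚ(d-n)) → ℚ` are perfect if and only if numerically trivial cycles are
torsion and `H^i(X, ℚ(n)) = CH^n(X, 2n-i)_ℚ = 0` for `i < 2n`; both can be checked over an algebraic
closure `k` of the finite field. We prove that this holds for all products `X_1 × ⋯ × X_r` of smooth
hypersurfaces of degrees prime to the characteristic, and all `(i, n)`, as soon as, for the *single*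
hypersurfaces

  `W : f(x_0, …, x_(a+1)) + (y_1^d - z_1^d) + ⋯ + (y_k^d - z_k^d) = 0`, `a ≤ ω(n)`,

of even dimension `n`, the numerically trivial cycles of *middle* codimension `n / 2` are torsion and
the groups `H^i(W, ℚ(n/2))` are zero for `i < n`. Here `ω` is any function which tends to infinity,
however slowly, and the pairs `(n, d)` are restricted to any set with arbitrarily large even `n` and
arbitrarily divisible `d` prime to the characteristic.
-/

open CategoryTheory MonoidalCategory

universe v u w w'

namespace Pool.Agent.Results.MP_a9d3bd_ag.ProductsOfHypersurfaces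

open Pool.Agent.Q28.HJ (pow)
open Pool.Agent.Q200.HP

/-- **Perfectness of the motivic pairings for products of hypersurfaces over finite fields.** Let `T`
be the Chow motives with rational coefficients over an algebraic closure of a finite field of
characteristic `p`, the smooth hypersurfaces of degrees prime to `p` and the numerically trivial
cycles, and `H` the motivic cohomology `CH^i(M, j) = H^(2i-j)(M, ℚ(i))` (`hT`, `hH`, `hF`: known
facts). Let `S` be a set of pairs `(n, d)` which contains, for all `N` and all `D` prime to `p`, a pair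
with `n ≥ N` even, `D ∣ d` and `d` prime to `p`, and let `ω : ℕ → ℕ` tend to infinity. The following
statements are equivalent.

1. For all hypersurfaces `W` of even dimension `n = 2 m` with `(n, deg W) ∈ S` which are iterated
  suspensions `f(x) + (y_1^d - z_1^d) + ⋯ = 0` of hypersurfaces `X : f(x) = 0` with `dim X ≤ ω(n)`:
  the numerically trivial cycles in `CH^m(W)` are zero, and `CH^m(W, j) = 0` for `j ≥ 1`.
2. For all tensor products `M` of primitive motives of smooth hypersurfaces, of weight `N`:
  `CH^i(M, j) = 0` for all `j ≥ 0` if `2 i ≠ N`; and if `2 i = N`, then the numerically trivial cycles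
  in `CH^i(M)` are zero and `CH^i(M, j) = 0` for `j ≥ 1`.
3. For all motives `M` which are obtained from motives of smooth hypersurfaces, the unit and the
  Lefschetz motive by tensor products, direct sums and direct summands (in particular for all products
  `X_1 × ⋯ × X_r`) and all `i`: the numerically trivial cycles in `CH^i(M)` are zero, and
  `CH^i(M, j) = 0` for `j ≥ 1`. -/
theorem result {𝓜 : Type u} [Category.{v} 𝓜] [Preadditive 𝓜] [MonoidalCategory 𝓜]
    [MonoidalPreadditive 𝓜] [Linear ℚ 𝓜] [BraidedCategory 𝓜] {T : NumMot.{v, u, w} 𝓜}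
    {H : Motivic.{v, u, w'} 𝓜 T.L} (hT : T.Facts) (hH : H.Laws) (hF : T.FrobOn H)
    (S : Set (ℕ × ℕ)) (hS : EvenPairs T.p S) (ω : ℕ → ℕ)
    (hω : Filter.Tendsto ω Filter.atTop Filter.atTop) :
    [∀ X W : T.Hyp, Relation.ReflTransGen T.Susp X W → (T.dim W, T.deg W) ∈ S →
        T.dim X ≤ ω (T.dim W) → ∀ m, 2 * m = T.dim W →
          T.RatNum m (T.mot W) ∧ ∀ j, 1 ≤ j → H.Zero j m (T.mot W),
      ∀ (N : ℕ) (M : 𝓜), T.IsProd N M →
        (∀ i, 2 * i ≠ N → (∀ f : pow T.L i ⟶ M, f = 0) ∧ ∀ j, 1 ≤ j → H.Zero j i M) ∧
          ∀ i, 2 * i = N → T.RatNum i M ∧ ∀ j, 1 ≤ j → H.Zero j i M,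
      ∀ M : 𝓜, T.Gen M → ∀ i, T.RatNum i M ∧ ∀ j, 1 ≤ j → H.Zero j i M].TFAE :=
  NumMot.perfect hT hH hF S hS ω hω

end Pool.Agent.Results.MP_a9d3bd_ag.ProductsOfHypersurfaces
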