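import Pool.Agent.Q200.HE.Main

/-!
# Perfect motivic pairings for hypersurfaces given by sums of ternary cubic forms

Let `p ≥ 5` and let `W` be a smooth hypersurface over a finite field of characteristic `p`, of
ARBITRARY dimension, with the equation

  `f_1(x_1, y_1, z_1) + f_2(x_2, y_2, z_2) + ⋯ + f_r(x_r, y_r, z_r) = 0`,

`f_j` cubic forms in at most three variables, or with the equation `f_1(x_1, y_1) + ⋯ + f_r(x_r, y_r)
= 0`, `f_j` binary quartic forms; one more term `u_j^3`, respectively `u_j^4`, is allowed for every
`j`. We prove that all the pairings `H^i(X, ℚ(n)) × H^(2d-i)(X, ℚ(d-n)) → ℚ` are perfect for all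
products `X` of such hypersurfaces and elliptic curves, and that the pairings
`H_i^c(X, ℚ(n)) × H^i_c(X, ℚ(n)) → ℚ` are perfect for all schemes `X` which can be built from these
by decompositions into closed and open parts, for example the affine hypersurfaces
`f_1 + ⋯ + f_r = 1` and the singular ones `f_1 + ⋯ + f_r = 0`.
-/

open CategoryTheory MonoidalCategory

universe v u w w'

namespace Pool.Agent.Results.MP_a9d3bd_ag.SumsOfTernaryCubics

open Pool.Agent.Q200.HE

/-- **Perfect pairings for sums of ternary cubics.** Let `T` be the Chow motives with rational
coefficients over an algebraic closure of a finite field of characteristic at least five, with motivic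
cohomology, and the schemes of finite type over finite fields (`hT`: known facts).

1. Let `M` be a motive obtained by tensor products, direct sums, direct summands and Tate twists from
  the motives `h^1(E)` of elliptic curves and from the motives of the smooth hypersurfaces `W`, of any
  dimensions, which are sums, in disjoint sets of variables, of cubic forms in at most three variables
  or of binary quartic forms. Then numerically trivial cycles in `CH^i(M)` are zero and
  `CH^i(M, j) = 0` for all `i` and all `j ≥ 1`. So the pairings `⟨ , ⟩_{i,n}` are perfect for all
  smooth projective `X` with such a motive.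
2. For all schemes `X` in the smallest class which contains the smooth projective schemes with such
  motives, and with two of `Z`, `X`, `U = X - Z` also the third one, all pairings
  `H_i^c(X, ℚ(n)) × H^i_c(X, ℚ(n)) → ℚ` are perfect. -/
theorem result {𝓜 : Type u} [Category.{v} 𝓜] [Preadditive 𝓜] [MonoidalCategory 𝓜]
    {T : VarData.{v, u, w, w'} 𝓜} (hT : T.Facts) :
    (∀ M : 𝓜, T.EllipticType M → T.Perfect M) ∧
      ∀ X : T.Var, T.Built X → T.PairingsPerfect X :=
  VarData.final hT

end Pool.Agent.Results.MP_a9d3bd_ag.SumsOfTernaryCubics
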