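import Pool.Agent.Q187.Par.Fin

/-!
# The statement `BP(n)`: products of `2n` factors

Let `T i` be pure theories over the field with `q` elements (in the intended use the rational
higher Chow groups `CH^*(Z, i)`, `i = 1, 2, …`, that is all motivic cohomology groups
`H^j(Z, ℚ(r))` with `j < 2r`), and let `𝒮` be a family of smooth projective varieties whose
homologically trivial self-correspondences of degree zero are nilpotent (for instance all curves).
Then `BP(n)` holds for all products of members of `𝒮`, and even for all varieties whose motives are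
direct factors of sums of effective twists of such products, if (and only if) it holds for the
products of exactly `2n` members.
-/

set_option autoImplicit false

open CategoryTheory AlgebraicGeometry

universe u v w

namespace Pool.Agent.Results.MP_a9d3bd_ag.WeightByWeight

open Pool.Agent.H914 Pool.Agent.H914.VarClass Pool.Agent.H914.VarClass.Obj
  Pool.Agent.W492.BB Pool.Agent.TH133 Pool.Agent.Q56.CP Q187.Par

/-- **`BP(n)`.** -/
theorem result {k : Type u} [Field k] {𝒱 : VarClass k} {C : TheoryData.{u, v, 0} 𝒱 ℚ}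
    [IsChowProj C] {K : Type w} [Field K] [CharZero K] {H : WeilTheoryData.{u, v, w} C K}
    [IsWeilProj H] {Fr : ∀ X : 𝒱.Obj, X ⟶ X} {q : ℕ} (hq : 1 < q) (hFr : IsFrob H Fr q)
    {I : Type} (T : I → Pure C Fr q) {𝒮 : Set 𝒱.Obj} (hN : ∀ X ∈ 𝒮, Nilp H X) {n : ℕ}
    (hn : 1 ≤ n) :
    (∀ s : ℕ, 1 ≤ s → s ≤ 2 * n → (∀ X ∈ 𝒮, Conn H s X) →
      ((∀ m, 1 ≤ m → BPProds T 𝒮 m n) ↔ BPProds T 𝒮 (2 * n / s) n)) ∧
    ((∃ X ∈ 𝒮, 0 < X.dim) → (BPFactors T 𝒮 n ↔ BPProds T 𝒮 (2 * n) n)) :=
  bp_exact hq hFr T hN hn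

end Pool.Agent.Results.MP_a9d3bd_ag.WeightByWeight
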